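import Pool.Agent.Q41.AB.Stm2

/-!
Homogenization with prescribed multidegree.
-/

set_option autoImplicit false

open MvPolynomial

namespace Pool.Agent.Q275.AB

open Pool.Agent.Q41.RC (MH)

/-- the exponents of the homogenization -/
noncomputable def ex {ρ σ : Type} [Fintype ρ] [Fintype σ] {n : ℕ} (ε : ρ ⊕ Fin n ≃ σ)
    (f : ρ → ℕ) (s : Fin n →₀ ℕ) : σ →₀ ℕ :=
  Finsupp.equivFunOnFinite.symm fun i => Sum.elim f (fun b => s b) (ε.symm i)

lemma ex_inl {ρ σ : Type} [Fintype ρ] [Fintype σ] {n : ℕ} (ε : ρ ⊕ Fin n ≃ σ)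
    (f : ρ → ℕ) (s : Fin n →₀ ℕ) (l : ρ) : ex ε f s (ε (Sum.inl l)) = f l := by
  simp [ex]

lemma ex_inr {ρ σ : Type} [Fintype ρ] [Fintype σ] {n : ℕ} (ε : ρ ⊕ Fin n ≃ σ)
    (f : ρ → ℕ) (s : Fin n →₀ ℕ) (b : Fin n) : ex ε f s (ε (Sum.inr b)) = s b := by
  simp [ex]

theorem hom : Pool.Agent.Q41.AB.S_Hom := by
  classical
  intro k ρ σ _ _ _ pr n ε hε D P hP
  refine ⟨∑ s ∈ P.support, monomial (ex ε (fun l => D l -
    ∑ b, (if pr (ε (Sum.inr b)) = l then s b else 0)) s) (coeff s P), ?_, ?_⟩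
  · intro t ht l
    obtain ⟨s, hs, hst⟩ := Finset.mem_biUnion.mp (support_sum ht)
    have h1 := Finset.mem_singleton.mp (support_monomial_subset hst)
    have h2 : ∀ f : σ → ℕ, ∑ i, f i = ∑ l', f (ε (Sum.inl l')) + ∑ b, f (ε (Sum.inr b)) := by
      intro f
      rw [← Fintype.sum_sum_type (fun x => f (ε x))]
      exact (Equiv.sum_comp ε f).symm
    have h3 := hP s hs l
    rw [h1, h2]
    simp only [ex_inl, ex_inr, hε]
    rw [Finset.sum_ite_eq' Finset.univ l, if_pos (Finset.mem_univ l)]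
    exact Nat.sub_add_cancel h3
  · intro K _ _ y hy
    have h2 : ∀ f : σ → K, ∏ i, f i = (∏ l', f (ε (Sum.inl l'))) * ∏ b, f (ε (Sum.inr b)) := by
      intro f
      rw [← Fintype.prod_sum_type (fun x => f (ε x))]
      exact (Equiv.prod_comp ε f).symm
    conv_rhs => rw [P.as_sum]
    rw [map_sum, map_sum]
    refine Finset.sum_congr rfl fun s _ => ?_
    rw [aeval_monomial, aeval_monomial, Finsupp.prod_fintype _ _ (fun i => pow_zero _),
      Finsupp.prod_fintype _ _ (fun i => pow_zero _), h2]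
    simp only [ex_inl, ex_inr, hy, one_pow, Finset.prod_const_one, one_mul]

end Pool.Agent.Q275.AB
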